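import Pool.Agent.Helper71.ST.Defs

/-!
# ST, block W: the trapezoid
-/

set_option autoImplicit false

namespace Pool.Agent.Helper82.ST

open MeasureTheory Pool.Agent.Helper71.ST Set

lemma mem_I {a δ w : ℝ} : |w - a| ≤ δ ↔ w ∈ Icc (a - δ) (a + δ) := by
  rw [abs_le, mem_Icc]
  constructor
  · rintro ⟨h1, h2⟩; constructor <;> linarith
  · rintro ⟨h1, h2⟩; constructor <;> linarith

lemma om_eq (v0 δ w : ℝ) : om v0 δ w = (2 * δ)⁻¹ * ((Icc (v0 - δ) (v0 + δ)).indicator (fun _ => (1:ℝ)) w -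
    (Icc (-(1 / 4) - δ) (-(1 / 4) + δ)).indicator (fun _ => (1:ℝ)) w) := by
  classical
  unfold om
  rw [indicator_apply, indicator_apply]
  have h1 : (|w + 1 / 4| ≤ δ) ↔ w ∈ Icc (-(1 / 4) - δ) (-(1 / 4) + δ) := by
    rw [show w + 1 / 4 = w - -(1 / 4) by ring]
    exact mem_I
  simp only [mem_I (a := v0), h1]

lemma ind_int (a δ : ℝ) : Integrable ((Icc (a - δ) (a + δ)).indicator (fun _ => (1:ℝ))) := by
  rw [integrable_indicator_iff measurableSet_Icc]
  exact integrableOn_const (by rw [Real.volume_Icc]; exact ENNReal.ofReal_ne_top)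

/-- one ramp -/
noncomputable def ramp (a δ y : ℝ) : ℝ := (2 * δ)⁻¹ * max 0 (min (2 * δ) (a + δ - y))

lemma ramp_int {a δ : ℝ} (hδ : 0 < δ) (y : ℝ) : ∫ w in Ioi y, (Icc (a - δ) (a + δ)).indicator (fun _ => (1:ℝ)) w =
    max 0 (min (2 * δ) (a + δ - y)) := by
  rw [setIntegral_indicator measurableSet_Icc, setIntegral_const, smul_eq_mul, mul_one]
  have h1 : volume.real (Ioi y ∩ Icc (a - δ) (a + δ)) = volume.real (Icc (max y (a - δ)) (a + δ)) := by
    have h2 : (Ioi y : Set ℝ) =ᵐ[volume] (Ici y : Set ℝ) := Ioi_ae_eq_Ici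
    have h3 : ((Ioi y ∩ Icc (a - δ) (a + δ) : Set ℝ)) =ᵐ[volume] ((Ici y ∩ Icc (a - δ) (a + δ) : Set ℝ)) :=
      ae_eq_set_inter h2 (Filter.EventuallyEq.refl _ _)
    rw [measureReal_congr h3]
    congr 1
    ext w
    simp only [mem_inter_iff, mem_Ici, mem_Icc, max_le_iff]
    tauto
  rw [h1, Real.volume_real_Icc]
  rcases le_total y (a - δ) with h | h
  · rw [max_eq_right h, min_eq_left (by linarith)]
    rw [max_comm]
    congr 1
    ring
  · rw [max_eq_left h, min_eq_right (by linarith), max_comm]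

lemma ramp_mono {a b δ y : ℝ} (hδ : 0 < δ) (h : a ≤ b) : ramp a δ y ≤ ramp b δ y := by
  unfold ramp
  apply mul_le_mul_of_nonneg_left _ (by positivity)
  exact max_le_max le_rfl (min_le_min le_rfl (by linarith))

lemma ramp_nonneg {a δ y : ℝ} (hδ : 0 < δ) : 0 ≤ ramp a δ y := by
  unfold ramp
  have := le_max_left 0 (min (2 * δ) (a + δ - y))
  positivity

lemma ramp_le_one {a δ y : ℝ} (hδ : 0 < δ) : ramp a δ y ≤ 1 := by
  unfold ramp
  rw [inv_mul_le_iff₀ (by positivity), mul_one]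
  exact max_le (by positivity) (min_le_left _ _)

lemma ramp_cont (a δ : ℝ) : Continuous (ramp a δ) := by
  unfold ramp
  fun_prop

section W

variable {v0 δ : ℝ}

theorem om_int (hδ : 0 < δ) : Integrable (om v0 δ) := by
  have : om v0 δ = fun w => (2 * δ)⁻¹ * ((Icc (v0 - δ) (v0 + δ)).indicator (fun _ => (1:ℝ)) w -
    (Icc (-(1 / 4) - δ) (-(1 / 4) + δ)).indicator (fun _ => (1:ℝ)) w) := funext fun w => om_eq v0 δ w
  rw [this]
  exact ((ind_int v0 δ).sub (ind_int (-(1 / 4)) δ)).const_mul _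

lemma Wf_eq (hδ : 0 < δ) (y : ℝ) : Wf v0 δ y = ramp v0 δ y - ramp (-(1 / 4)) δ y := by
  unfold Wf
  simp_rw [om_eq]
  rw [integral_const_mul, integral_sub (ind_int v0 δ).integrableOn (ind_int (-(1 / 4)) δ).integrableOn, ramp_int hδ, ramp_int hδ]
  unfold ramp
  ring

theorem Wf_nonneg (hδ : 0 < δ) (hδ1 : δ ≤ 1 / 16) (hv : 1 / 4 ≤ v0) (y : ℝ) : 0 ≤ Wf v0 δ y := by
  rw [Wf_eq hδ]
  have := ramp_mono (y := y) hδ (show -(1 / 4) ≤ v0 by linarith)
  linarith

theorem Wf_le_one (hδ : 0 < δ) (hδ1 : δ ≤ 1 / 16) (hv : 1 / 4 ≤ v0) (y : ℝ) : Wf v0 δ y ≤ 1 := by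
  rw [Wf_eq hδ]
  have h1 := ramp_le_one (a := v0) (y := y) hδ
  have h2 := ramp_nonneg (a := -(1 / 4)) (y := y) hδ
  linarith

theorem Wf_supp (hδ : 0 < δ) (hδ1 : δ ≤ 1 / 16) (hv : 1 / 4 ≤ v0) {y : ℝ} (h : v0 + δ < y ∨ y < -(1 / 4) - δ) : Wf v0 δ y = 0 := by
  rw [Wf_eq hδ]
  unfold ramp
  rcases h with h | h
  · rw [max_eq_left ((min_le_right _ _).trans (by linarith)), max_eq_left ((min_le_right _ _).trans (by linarith))]
    ring
  · rw [min_eq_left (by linarith), min_eq_left (by linarith)]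
    ring

lemma Wf_cont (hδ : 0 < δ) : Continuous (Wf v0 δ) := by
  have : Wf v0 δ = fun y => ramp v0 δ y - ramp (-(1 / 4)) δ y := funext fun y => Wf_eq hδ y
  rw [this]
  exact (ramp_cont _ _).sub (ramp_cont _ _)

theorem fk_cont (hδ : 0 < δ) (t : ℝ) : Continuous (fk t v0 δ) := by
  unfold fk
  have := Wf_cont (v0 := v0) hδ
  fun_prop

theorem fk_supp (hδ : 0 < δ) (hδ1 : δ ≤ 1 / 16) (hv : 1 / 4 ≤ v0) (t : ℝ) {y : ℝ} (h : v0 + δ < y ∨ y < -(1 / 4) - δ) :
    fk t v0 δ y = 0 := by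
  unfold fk
  rw [Wf_supp hδ hδ1 hv h]
  simp

theorem fk_int (hδ : 0 < δ) (hδ1 : δ ≤ 1 / 16) (hv : 1 / 4 ≤ v0) (t : ℝ) : Integrable (fk t v0 δ) := by
  apply (fk_cont hδ t).integrable_of_hasCompactSupport
  apply HasCompactSupport.intro (isCompact_Icc (a := -(1 / 4) - δ) (b := v0 + δ))
  intro y hy
  apply fk_supp hδ hδ1 hv t
  rw [mem_Icc, not_and_or, not_le, not_le] at hy
  tauto

lemma fk_abs (hδ : 0 < δ) (hδ1 : δ ≤ 1 / 16) (hv : 1 / 4 ≤ v0) (t y : ℝ) : ‖fk t v0 δ y‖ = Real.exp (y / 2) * Wf v0 δ y := by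
  unfold fk
  rw [norm_mul, Complex.norm_real, Real.norm_eq_abs, abs_of_nonneg (Wf_nonneg hδ hδ1 hv y), Complex.norm_exp]
  congr 2
  simp
  ring

theorem fk_norm (hδ : 0 < δ) (hδ1 : δ ≤ 1 / 16) (hv : 1 / 4 ≤ v0) (t : ℝ) : ∫ y, ‖fk t v0 δ y‖ ≤ 2 * Real.exp ((v0 + δ) / 2) := by
  have h1 : ∫ y, ‖fk t v0 δ y‖ ≤ ∫ y, (Iic (v0 + δ)).indicator (fun y => Real.exp (y / 2)) y := by
    apply integral_mono_of_nonneg (ae_of_all _ fun y => norm_nonneg _)
    · rw [integrable_indicator_iff measurableSet_Iic]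
      have := integrableOn_exp_mul_Iic (show (0:ℝ) < 1 / 2 by norm_num) (v0 + δ)
      refine this.congr_fun (fun y _ => ?_) measurableSet_Iic
      simp only
      congr 1
      ring
    · refine ae_of_all _ fun y => ?_
      simp only
      rw [indicator_apply]
      split_ifs with h
      · rw [fk_abs hδ hδ1 hv]
        exact mul_le_of_le_one_right (Real.exp_pos _).le (Wf_le_one hδ hδ1 hv y)
      · rw [mem_Iic, not_le] at h
        rw [fk_supp hδ hδ1 hv t (Or.inl h), norm_zero]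
  refine h1.trans ?_
  rw [integral_indicator measurableSet_Iic]
  have h2 : ∫ y in Iic (v0 + δ), Real.exp (y / 2) = ∫ y in Iic (v0 + δ), Real.exp (1 / 2 * y) := by
    congr 1
    funext y
    congr 1
    ring
  rw [h2, integral_exp_mul_Iic (by norm_num)]
  apply le_of_eq
  rw [show 1 / 2 * (v0 + δ) = (v0 + δ) / 2 by ring]
  ring

/-- the two parts of an integral against `om` -/
theorem om_split (hδ : 0 < δ) {h : ℝ → ℂ} (hh : Continuous h) : ∫ w, (om v0 δ w : ℂ) * h w =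
    ((2 * δ : ℝ) : ℂ)⁻¹ * ((∫ w in Set.Icc (v0 - δ) (v0 + δ), h w) - ∫ w in Set.Icc (-(1 / 4) - δ) (-(1 / 4) + δ), h w) := by
  have h1 : ∀ w, (om v0 δ w : ℂ) * h w = ((2 * δ : ℝ) : ℂ)⁻¹ * ((Icc (v0 - δ) (v0 + δ)).indicator h w -
      (Icc (-(1 / 4) - δ) (-(1 / 4) + δ)).indicator h w) := by
    intro w
    rw [om_eq]
    simp only [indicator_apply]
    push_cast
    split_ifs <;> simp <;> ring
  simp_rw [h1]
  rw [integral_const_mul, integral_sub, integral_indicator measurableSet_Icc, integral_indicator measurableSet_Icc]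
  · rw [integrable_indicator_iff measurableSet_Icc]
    exact hh.continuousOn.integrableOn_compact isCompact_Icc
  · rw [integrable_indicator_iff measurableSet_Icc]
    exact hh.continuousOn.integrableOn_compact isCompact_Icc

theorem om_abs (hδ : 0 < δ) {h : ℝ → ℝ} (hh : Continuous h) (h0 : ∀ w, 0 ≤ h w) {c1 c2 : ℝ}
    (h1 : ∀ w, |w - v0| ≤ δ → h w ≤ c1) (h2 : ∀ w, |w + 1 / 4| ≤ δ → h w ≤ c2) :
    Integrable (fun w => |om v0 δ w| * h w) ∧ ∫ w, |om v0 δ w| * h w ≤ c1 + c2 := by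
  have hi : ∀ a : ℝ, Integrable ((Icc (a - δ) (a + δ)).indicator h) := fun a => by
    rw [integrable_indicator_iff measurableSet_Icc]
    exact hh.continuousOn.integrableOn_compact isCompact_Icc
  have hle : ∀ w, |om v0 δ w| * h w ≤ (2 * δ)⁻¹ * ((Icc (v0 - δ) (v0 + δ)).indicator h w +
      (Icc (-(1 / 4) - δ) (-(1 / 4) + δ)).indicator h w) := by
    intro w
    rw [om_eq, abs_mul, abs_of_pos (by positivity : 0 < (2 * δ)⁻¹), mul_assoc]
    apply mul_le_mul_of_nonneg_left _ (by positivity)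
    have := h0 w
    simp only [indicator_apply]
    split_ifs <;> simp <;> linarith
  have hint : Integrable (fun w => (2 * δ)⁻¹ * ((Icc (v0 - δ) (v0 + δ)).indicator h w +
      (Icc (-(1 / 4) - δ) (-(1 / 4) + δ)).indicator h w)) := ((hi v0).add (hi (-(1 / 4)))).const_mul _
  have hmain : Integrable (fun w => |om v0 δ w| * h w) := by
    refine hint.mono' ((om_int hδ).aestronglyMeasurable.norm.mul hh.aestronglyMeasurable) (ae_of_all _ fun w => ?_)
    rw [Real.norm_eq_abs, abs_of_nonneg (mul_nonneg (abs_nonneg _) (h0 w))]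
    exact hle w
  refine ⟨hmain, (integral_mono hmain hint hle).trans ?_⟩
  rw [integral_const_mul, integral_add (hi v0) (hi (-(1 / 4))), integral_indicator measurableSet_Icc, integral_indicator measurableSet_Icc]
  have hb : ∀ a c : ℝ, (∀ w ∈ Icc (a - δ) (a + δ), h w ≤ c) → ∫ w in Icc (a - δ) (a + δ), h w ≤ 2 * δ * c := by
    intro a c hc
    have h3 : ∫ w in Icc (a - δ) (a + δ), h w ≤ ∫ w in Icc (a - δ) (a + δ), c :=
      setIntegral_mono_on (hh.continuousOn.integrableOn_compact isCompact_Icc)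
        (integrableOn_const (by rw [Real.volume_Icc]; exact ENNReal.ofReal_ne_top)) measurableSet_Icc hc
    rw [setIntegral_const, smul_eq_mul, Real.volume_real_Icc_of_le (by linarith)] at h3
    refine h3.trans (le_of_eq ?_)
    ring
  have h3 := hb v0 c1 (fun w hw => h1 w (mem_I.2 hw))
  have h4 := hb (-(1 / 4)) c2 (fun w hw => h2 w (by
    have := mem_I.2 hw
    rwa [sub_neg_eq_add] at this))
  have h5 : (2 * δ)⁻¹ * ((∫ w in Icc (v0 - δ) (v0 + δ), h w) + ∫ w in Icc (-(1 / 4) - δ) (-(1 / 4) + δ), h w) ≤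
      (2 * δ)⁻¹ * (2 * δ * c1 + 2 * δ * c2) := mul_le_mul_of_nonneg_left (by linarith) (by positivity)
  refine h5.trans (le_of_eq ?_)
  field_simp

end W

end Pool.Agent.Helper82.ST
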